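import Mathlib

set_option autoImplicit false

namespace Pool.Agent.Q224.UM

open Filter Topology MeasureTheory Complex ProbabilityTheory

noncomputable section

/-- Taylor remainder of the exponential on the imaginary axis. -/
theorem norm_exp_I_sub_le_of_nonneg (n : ℕ) : ∀ y : ℝ, 0 ≤ y →
    ‖Complex.exp ((y : ℂ) * I) - ∑ k ∈ Finset.range n, ((y : ℂ) * I) ^ k / (k.factorial : ℂ)‖ ≤
      y ^ n / (n.factorial : ℝ) := by
  induction n with
  | zero =>
    intro y _
    simp [Complex.norm_exp_ofReal_mul_I]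
  | succ n ih =>
    intro y hy
    set f : ℝ → ℂ := fun s => Complex.exp ((s : ℂ) * I) -
      ∑ k ∈ Finset.range (n + 1), ((s : ℂ) * I) ^ k / (k.factorial : ℂ) with hf
    set f' : ℝ → ℂ := fun s => I * (Complex.exp ((s : ℂ) * I) -
      ∑ k ∈ Finset.range n, ((s : ℂ) * I) ^ k / (k.factorial : ℂ)) with hf'
    have hd : ∀ s : ℝ, HasDerivAt f (f' s) s := by
      intro s
      have h1 : HasDerivAt (fun s : ℝ => (s : ℂ) * I) I s := by
        simpa using (Complex.ofRealCLM.hasDerivAt (x := s)).mul_const I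
      have h2 : HasDerivAt (fun s : ℝ => Complex.exp ((s : ℂ) * I))
          (Complex.exp ((s : ℂ) * I) * I) s := h1.cexp
      have h3 : ∀ k : ℕ, HasDerivAt (fun s : ℝ => ((s : ℂ) * I) ^ k / (k.factorial : ℂ))
          (((k : ℂ) * ((s : ℂ) * I) ^ (k - 1) * I) / (k.factorial : ℂ)) s := fun k =>
        (h1.pow k).div_const _
      have h4 := h2.sub (HasDerivAt.fun_sum (u := Finset.range (n + 1)) fun k _ => h3 k)
      refine h4.congr_deriv ?_
      simp only [hf']
      rw [Finset.sum_range_succ']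
      simp only [Nat.cast_zero, zero_mul, zero_div, add_zero, Nat.add_sub_cancel]
      rw [mul_sub, Finset.mul_sum]
      congr 1
      · ring
      · refine Finset.sum_congr rfl fun k _ => ?_
        rw [Nat.factorial_succ]
        have h5 : ((k + 1 : ℕ) : ℂ) ≠ 0 := by exact_mod_cast Nat.succ_ne_zero k
        have h6 : (k.factorial : ℂ) ≠ 0 := by exact_mod_cast Nat.factorial_ne_zero k
        push_cast at h5 ⊢
        field_simp
    have hB : ∀ s : ℝ, HasDerivAt (fun s : ℝ => s ^ (n + 1) / ((n + 1).factorial : ℝ))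
        (s ^ n / (n.factorial : ℝ)) s := by
      intro s
      refine ((hasDerivAt_pow (n + 1) s).div_const _).congr_deriv ?_
      rw [Nat.factorial_succ]
      have h6 : (n.factorial : ℝ) ≠ 0 := by exact_mod_cast Nat.factorial_ne_zero n
      push_cast
      field_simp
    have key := image_norm_le_of_norm_deriv_right_le_deriv_boundary (a := 0) (b := y) (f := f)
      (f' := f') (B := fun s : ℝ => s ^ (n + 1) / ((n + 1).factorial : ℝ))
      (B' := fun s : ℝ => s ^ n / (n.factorial : ℝ))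
      (fun s _ => (hd s).continuousAt.continuousWithinAt)
      (fun s _ => (hd s).hasDerivWithinAt)
      (by
        simp only [hf]
        rw [Finset.sum_range_succ']
        simp)
      (fun s => hB s)
      (fun s hs => by
        simp only [hf']
        rw [norm_mul, Complex.norm_I, one_mul]
        exact ih s hs.1)
    exact key ⟨hy, le_refl y⟩

theorem norm_exp_I_sub_le (n : ℕ) (y : ℝ) :
    ‖Complex.exp ((y : ℂ) * I) - ∑ k ∈ Finset.range n, ((y : ℂ) * I) ^ k / (k.factorial : ℂ)‖ ≤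
      |y| ^ n / (n.factorial : ℝ) := by
  rcases le_total 0 y with hy | hy
  · rw [abs_of_nonneg hy]
    exact norm_exp_I_sub_le_of_nonneg n y hy
  · have h1 := norm_exp_I_sub_le_of_nonneg n (-y) (by linarith)
    rw [abs_of_nonpos hy]
    refine le_trans (le_of_eq ?_) h1
    rw [← Complex.norm_conj]
    congr 1
    rw [map_sub, ← Complex.exp_conj, map_sum]
    simp only [map_div₀, map_pow, map_mul, Complex.conj_ofReal, Complex.conj_I, map_natCast]
    push_cast
    congr 1
    · congr 1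
      ring
    · refine Finset.sum_congr rfl fun k _ => ?_
      congr 2
      ring

/-- The even absolute exponential moments of the Gaussian law decay after division by factorials. -/
theorem gauss_moment (t : ℝ) : ∃ C : ℝ, 0 ≤ C ∧ ∀ n : ℕ,
    |t| ^ (2 * n) / ((2 * n).factorial : ℝ) * ∫ x, x ^ (2 * n) ∂(gaussianReal 0 1) ≤
      C / 4 ^ n := by
  have hi1 : Integrable (fun x : ℝ => Real.exp ((2 * |t|) * x)) (gaussianReal 0 1) :=
    integrable_exp_mul_gaussianReal _
  have hi2 : Integrable (fun x : ℝ => Real.exp ((-(2 * |t|)) * x)) (gaussianReal 0 1) :=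
    integrable_exp_mul_gaussianReal _
  refine ⟨∫ x, (Real.exp ((2 * |t|) * x) + Real.exp ((-(2 * |t|)) * x)) ∂(gaussianReal 0 1),
    integral_nonneg fun x => by positivity, fun n => ?_⟩
  rw [← integral_const_mul, div_eq_inv_mul (∫ x, _ ∂_), ← integral_const_mul]
  refine integral_mono_of_nonneg (Filter.Eventually.of_forall fun x => ?_)
    ((hi1.add hi2).const_mul _) (Filter.Eventually.of_forall fun x => ?_)
  · simp only [Pi.zero_apply]
    have : 0 ≤ x ^ (2 * n) := by
      rw [pow_mul]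
      positivity
    positivity
  · simp only
    have h1 : |t| ^ (2 * n) / ((2 * n).factorial : ℝ) * x ^ (2 * n) =
        ((4 : ℝ) ^ n)⁻¹ * ((2 * |t| * |x|) ^ (2 * n) / ((2 * n).factorial : ℝ)) := by
      have h2 : x ^ (2 * n) = |x| ^ (2 * n) := by
        rw [pow_mul, pow_mul, sq_abs]
      rw [h2, mul_pow, mul_pow]
      have h3 : (2 : ℝ) ^ (2 * n) = 4 ^ n := by
        rw [pow_mul]
        norm_num
      rw [h3]
      have h4 : (4 : ℝ) ^ n ≠ 0 := by positivity
      field_simp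
    rw [h1]
    refine mul_le_mul_of_nonneg_left ?_ (by positivity)
    have h5 : (2 * |t| * |x|) ^ (2 * n) / ((2 * n).factorial : ℝ) ≤ Real.exp (2 * |t| * |x|) :=
      Real.pow_div_factorial_le_exp _ (by positivity) _
    refine le_trans h5 ?_
    rcases le_total 0 x with hx | hx
    · rw [abs_of_nonneg hx]
      have := Real.exp_pos (-(2 * |t|) * x)
      linarith
    · rw [abs_of_nonpos hx]
      have h6 := Real.exp_pos ((2 * |t|) * x)
      have h7 : (2 * |t| * -x) = -(2 * |t|) * x := by ring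
      rw [h7]
      linarith

theorem charFun_eq (μ : Measure ℝ) [IsFiniteMeasure μ] (n : ℕ) (t : ℝ)
    (hi : ∀ k : ℕ, k ≤ n → Integrable (fun x : ℝ => x ^ k) μ) :
    charFun μ t = (∫ x : ℝ, (Complex.exp (((t * x : ℝ) : ℂ) * I) -
      ∑ k ∈ Finset.range n, (((t * x : ℝ) : ℂ) * I) ^ k / (k.factorial : ℂ)) ∂μ) +
      ∑ k ∈ Finset.range n, ((t : ℂ) * I) ^ k / (k.factorial : ℂ) * ((∫ x : ℝ, x ^ k ∂μ : ℝ) : ℂ) := by
  have h1 : Integrable (fun x : ℝ => Complex.exp (((t * x : ℝ) : ℂ) * I)) μ := by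
    refine Integrable.mono' (integrable_const (1 : ℝ)) (by fun_prop) ?_
    exact Filter.Eventually.of_forall fun x => by rw [Complex.norm_exp_ofReal_mul_I]
  have h2 : ∀ k ∈ Finset.range n, Integrable
      (fun x : ℝ => (((t * x : ℝ) : ℂ) * I) ^ k / (k.factorial : ℂ)) μ := by
    intro k hk
    have h3 : (fun x : ℝ => (((t * x : ℝ) : ℂ) * I) ^ k / (k.factorial : ℂ)) =
        fun x : ℝ => ((t : ℂ) * I) ^ k / (k.factorial : ℂ) * ((x ^ k : ℝ) : ℂ) := by
      funext x
      push_cast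
      rw [show (t : ℂ) * (x : ℂ) * I = ((t : ℂ) * I) * (x : ℂ) by ring, mul_pow]
      ring
    rw [h3]
    exact ((hi k (Finset.mem_range.1 hk).le).ofReal).const_mul _
  rw [integral_sub h1 (integrable_finsetSum _ h2), integral_finsetSum _ h2, charFun_apply_real]
  have h4 : ∀ k ∈ Finset.range n, (∫ x : ℝ, (((t * x : ℝ) : ℂ) * I) ^ k / (k.factorial : ℂ) ∂μ) =
      ((t : ℂ) * I) ^ k / (k.factorial : ℂ) * ((∫ x : ℝ, x ^ k ∂μ : ℝ) : ℂ) := by
    intro k _
    rw [← integral_complex_ofReal, ← integral_const_mul]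
    refine integral_congr_ae (Filter.Eventually.of_forall fun x => ?_)
    simp only
    push_cast
    rw [show (t : ℂ) * (x : ℂ) * I = ((t : ℂ) * I) * (x : ℂ) by ring, mul_pow]
    ring
  rw [Finset.sum_congr rfl h4, sub_add_cancel]
  refine integral_congr_ae (Filter.Eventually.of_forall fun x => ?_)
  simp only
  push_cast
  rfl

theorem rem_le (μ : Measure ℝ) [IsFiniteMeasure μ] (n : ℕ) (t : ℝ)
    (hi : Integrable (fun x : ℝ => x ^ (2 * n)) μ) :
    ‖∫ x : ℝ, (Complex.exp (((t * x : ℝ) : ℂ) * I) -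
      ∑ k ∈ Finset.range (2 * n), (((t * x : ℝ) : ℂ) * I) ^ k / (k.factorial : ℂ)) ∂μ‖ ≤
      |t| ^ (2 * n) / ((2 * n).factorial : ℝ) * ∫ x, x ^ (2 * n) ∂μ := by
  rw [← integral_const_mul]
  refine norm_integral_le_of_norm_le (hi.const_mul _) (Filter.Eventually.of_forall fun x => ?_)
  refine le_trans (norm_exp_I_sub_le (2 * n) (t * x)) (le_of_eq ?_)
  have h2 : x ^ (2 * n) = |x| ^ (2 * n) := by
    rw [pow_mul, pow_mul, sq_abs]
  rw [h2, abs_mul, mul_pow]
  ring

theorem cf_close (μ ν : Measure ℝ) [IsFiniteMeasure μ] [IsFiniteMeasure ν] (n : ℕ) (t e : ℝ)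
    (he : 0 ≤ e)
    (hi : ∀ k : ℕ, k ≤ 2 * n → Integrable (fun x : ℝ => x ^ k) μ)
    (hj : ∀ k : ℕ, k ≤ 2 * n → Integrable (fun x : ℝ => x ^ k) ν)
    (hm : ∀ k : ℕ, k ≤ 2 * n → |(∫ x, x ^ k ∂μ) - ∫ x, x ^ k ∂ν| ≤ e) :
    ‖charFun μ t - charFun ν t‖ ≤ 2 * e * Real.exp |t| +
      2 * (|t| ^ (2 * n) / ((2 * n).factorial : ℝ) * ∫ x, x ^ (2 * n) ∂ν) := by
  have h1 := rem_le μ n t (hi _ le_rfl)
  have h2 := rem_le ν n t (hj _ le_rfl)
  rw [charFun_eq μ (2 * n) t hi, charFun_eq ν (2 * n) t hj]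
  set A := ∫ x : ℝ, (Complex.exp (((t * x : ℝ) : ℂ) * I) -
      ∑ k ∈ Finset.range (2 * n), (((t * x : ℝ) : ℂ) * I) ^ k / (k.factorial : ℂ)) ∂μ with hA
  set B := ∫ x : ℝ, (Complex.exp (((t * x : ℝ) : ℂ) * I) -
      ∑ k ∈ Finset.range (2 * n), (((t * x : ℝ) : ℂ) * I) ^ k / (k.factorial : ℂ)) ∂ν with hB
  have h3 : ‖(∑ k ∈ Finset.range (2 * n), ((t : ℂ) * I) ^ k / (k.factorial : ℂ) *
      ((∫ x : ℝ, x ^ k ∂μ : ℝ) : ℂ)) - ∑ k ∈ Finset.range (2 * n),
      ((t : ℂ) * I) ^ k / (k.factorial : ℂ) * ((∫ x : ℝ, x ^ k ∂ν : ℝ) : ℂ)‖ ≤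
      e * Real.exp |t| := by
    rw [← Finset.sum_sub_distrib]
    refine le_trans (norm_sum_le _ _) ?_
    have h4 : ∑ k ∈ Finset.range (2 * n), |t| ^ k / (k.factorial : ℝ) ≤ Real.exp |t| :=
      Real.sum_le_exp_of_nonneg (abs_nonneg t) _
    refine le_trans ?_ (mul_le_mul_of_nonneg_left h4 he)
    rw [Finset.mul_sum]
    refine Finset.sum_le_sum fun k hk => ?_
    rw [← mul_sub, norm_mul, norm_div, norm_pow, norm_mul, Complex.norm_I, mul_one,
      Complex.norm_real, Complex.norm_natCast, Real.norm_eq_abs, ← Complex.ofReal_sub,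
      Complex.norm_real, Real.norm_eq_abs, mul_comm e]
    exact mul_le_mul_of_nonneg_left (hm k (Finset.mem_range.1 hk).le) (by positivity)
  have h5 : |t| ^ (2 * n) / ((2 * n).factorial : ℝ) ≤ Real.exp |t| :=
    Real.pow_div_factorial_le_exp _ (abs_nonneg t) _
  have h6 : (∫ x, x ^ (2 * n) ∂μ) ≤ (∫ x, x ^ (2 * n) ∂ν) + e := by
    have := (abs_le.1 (hm _ le_rfl)).2
    linarith
  have h7 : |t| ^ (2 * n) / ((2 * n).factorial : ℝ) * (∫ x, x ^ (2 * n) ∂μ) ≤
      |t| ^ (2 * n) / ((2 * n).factorial : ℝ) * (∫ x, x ^ (2 * n) ∂ν) + Real.exp |t| * e := by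
    refine le_trans (mul_le_mul_of_nonneg_left h6 (by positivity)) ?_
    rw [mul_add]
    have := mul_le_mul_of_nonneg_right h5 he
    linarith
  have h8 : ∀ a b c d : ℂ, a + b - (c + d) = a - c + (b - d) := fun a b c d => by ring
  rw [h8]
  refine le_trans (norm_add_le _ _) ?_
  have h9 := norm_sub_le A B
  linarith

theorem integrable_pow_gauss (k : ℕ) : Integrable (fun x : ℝ => x ^ k) (gaussianReal 0 1) :=
  integrable_pow_of_integrable_exp_mul (X := fun x : ℝ => x) (t := 1) one_ne_zero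
    (integrable_exp_mul_gaussianReal _) (integrable_exp_mul_gaussianReal _) k

/-- Convergence of all moments to the Gaussian moments implies convergence in law. -/
theorem tendsto_of_moments (μ : ℕ → Measure ℝ) [∀ n, IsFiniteMeasure (μ n)]
    (h : ∀ n k : ℕ, k ≤ 2 * n → Integrable (fun x : ℝ => x ^ k) (μ n) ∧
      |(∫ x, x ^ k ∂(μ n)) - ∫ x, x ^ k ∂(gaussianReal 0 1)| ≤ 1 / (n + 1 : ℝ)) (t : ℝ) :
    Tendsto (fun n => charFun (μ n) t) atTop (𝓝 (charFun (gaussianReal 0 1) t)) := by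
  obtain ⟨C, hC, hC1⟩ := gauss_moment t
  rw [tendsto_iff_norm_sub_tendsto_zero]
  have h1 : Tendsto (fun n : ℕ => 2 * (1 / (n + 1 : ℝ)) * Real.exp |t| + 2 * (C / 4 ^ n)) atTop
      (𝓝 (2 * 0 * Real.exp |t| + 2 * 0)) := by
    refine Tendsto.add ?_ ?_
    · exact (tendsto_one_div_add_atTop_nhds_zero_nat.const_mul 2).mul_const _
    · refine Tendsto.const_mul _ ?_
      exact Tendsto.div_atTop tendsto_const_nhds (tendsto_pow_atTop_atTop_of_one_lt (by norm_num))
  simp only [mul_zero, zero_mul, add_zero] at h1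
  refine squeeze_zero (fun n => norm_nonneg _) (fun n => ?_) h1
  have h2 := cf_close (μ n) (gaussianReal 0 1) n t (1 / (n + 1 : ℝ)) (by positivity)
    (fun k hk => (h n k hk).1) (fun k _ => ?_) (fun k hk => (h n k hk).2)
  · refine le_trans h2 ?_
    have := hC1 n
    linarith
  · exact integrable_pow_gauss k

/-- Convergence of the measures of half-lines. -/
theorem half_lines (μ : ℕ → Measure ℝ) [∀ n, IsFiniteMeasure (μ n)]
    (h : ∀ n k : ℕ, k ≤ 2 * n → Integrable (fun x : ℝ => x ^ k) (μ n) ∧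
      |(∫ x, x ^ k ∂(μ n)) - ∫ x, x ^ k ∂(gaussianReal 0 1)| ≤ 1 / (n + 1 : ℝ)) (a : ℝ) :
    Tendsto (fun n => (μ n).real (Set.Ioi a)) atTop (𝓝 ((gaussianReal 0 1).real (Set.Ioi a))) := by
  -- total masses
  have hmass : ∀ n : ℕ, |(μ n).real Set.univ - 1| ≤ 1 / (n + 1 : ℝ) := by
    intro n
    have := (h n 0 (Nat.zero_le _)).2
    simpa using this
  have hlim : Tendsto (fun n => (μ n).real Set.univ) atTop (𝓝 1) := by
    rw [tendsto_iff_norm_sub_tendsto_zero]
    exact squeeze_zero (fun n => norm_nonneg _) (fun n => hmass n)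
      tendsto_one_div_add_atTop_nhds_zero_nat
  have hpos : ∀ᶠ n in atTop, 0 < (μ n).real Set.univ := hlim.eventually (lt_mem_nhds one_pos)
  classical
  -- normalised measures
  set P : ℕ → Measure ℝ := fun n => if 0 < (μ n).real Set.univ then
    (μ n Set.univ)⁻¹ • μ n else gaussianReal 0 1 with hP
  have hPp : ∀ n, IsProbabilityMeasure (P n) := by
    intro n
    by_cases hn : 0 < (μ n).real Set.univ
    · simp only [hP, if_pos hn]
      have hne : μ n Set.univ ≠ 0 := by
        intro h0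
        rw [Measure.real, h0] at hn
        simp at hn
      exact ⟨by
        rw [Measure.smul_apply, smul_eq_mul]
        exact ENNReal.inv_mul_cancel hne (measure_ne_top _ _)⟩
    · simp only [hP, if_neg hn]
      infer_instance
  have hcf : ∀ t : ℝ, Tendsto (fun n => charFun (P n) t) atTop
      (𝓝 (charFun (gaussianReal 0 1) t)) := by
    intro t
    have h1 := tendsto_of_moments μ h t
    have h2 : Tendsto (fun n => (((μ n).real Set.univ : ℝ) : ℂ)⁻¹ * charFun (μ n) t) atTop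
        (𝓝 ((1 : ℂ)⁻¹ * charFun (gaussianReal 0 1) t)) := by
      refine Tendsto.mul (Tendsto.inv₀ ?_ one_ne_zero) h1
      exact_mod_cast (Complex.continuous_ofReal.tendsto 1).comp hlim
    rw [inv_one, one_mul] at h2
    refine h2.congr' ?_
    filter_upwards [hpos] with n hn
    simp only [hP, if_pos hn]
    rw [charFun_apply_real, charFun_apply_real, integral_smul_measure, Complex.real_smul]
    rw [ENNReal.toReal_inv, Measure.real, Complex.ofReal_inv]
  let Q : ℕ → ProbabilityMeasure ℝ := fun n => ⟨P n, hPp n⟩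
  let G : ProbabilityMeasure ℝ := ⟨gaussianReal 0 1, inferInstance⟩
  have hweak : Tendsto Q atTop (𝓝 G) :=
    ProbabilityMeasure.tendsto_iff_tendsto_charFun.2 fun t => hcf t
  have hIoi := ProbabilityMeasure.tendsto_measure_of_null_frontier_of_tendsto' hweak
    (E := Set.Ioi a) (by
      change gaussianReal 0 1 (frontier (Set.Ioi a)) = 0
      rw [frontier_Ioi]
      have := nullSingletonClass_gaussianReal (μ := 0) (v := 1) one_ne_zero
      exact measure_singleton a)
  change Tendsto (fun n => P n (Set.Ioi a)) atTop (𝓝 (gaussianReal 0 1 (Set.Ioi a))) at hIoi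
  have hreal : Tendsto (fun n => (P n).real (Set.Ioi a)) atTop
      (𝓝 ((gaussianReal 0 1).real (Set.Ioi a))) :=
    (ENNReal.tendsto_toReal (measure_ne_top _ _)).comp hIoi
  have hmul := hlim.mul hreal
  rw [one_mul] at hmul
  refine hmul.congr' ?_
  filter_upwards [hpos] with n hn
  simp only [hP, if_pos hn]
  rw [measureReal_ennreal_smul_apply, ENNReal.toReal_inv]
  rw [← mul_assoc]
  rw [show (μ n).real Set.univ * ((μ n Set.univ).toReal)⁻¹ = 1 from mul_inv_cancel₀ hn.ne', one_mul]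

theorem half_line_uniform (a ε : ℝ) (hε : 0 < ε) : ∃ (K : ℕ) (ε' : ℝ), 0 < ε' ∧
    ∀ μ : Measure ℝ, IsFiniteMeasure μ →
    (∀ k : ℕ, k ≤ K → Integrable (fun x : ℝ => x ^ k) μ ∧
      |(∫ x, x ^ k ∂μ) - ∫ x, x ^ k ∂(gaussianReal 0 1)| ≤ ε') →
    μ.real (Set.Ioi a) ≤ (gaussianReal 0 1).real (Set.Ioi a) + ε := by
  by_contra hcon
  push Not at hcon
  have h1 : ∀ n : ℕ, ∃ μ : Measure ℝ, IsFiniteMeasure μ ∧
    (∀ k : ℕ, k ≤ 2 * n → Integrable (fun x : ℝ => x ^ k) μ ∧
      |(∫ x, x ^ k ∂μ) - ∫ x, x ^ k ∂(gaussianReal 0 1)| ≤ 1 / (n + 1 : ℝ)) ∧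
    (gaussianReal 0 1).real (Set.Ioi a) + ε < μ.real (Set.Ioi a) := fun n =>
      hcon (2 * n) (1 / (n + 1 : ℝ)) (by positivity)
  choose μ hf hm hlt using h1
  have h2 := half_lines μ hm a
  have h3 := ge_of_tendsto' h2 fun n => (hlt n).le
  linarith

end

end Pool.Agent.Q224.UM
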