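import Pool.Agent.Q97.UM.Stm18
import Pool.Agent.Q224.UM.ABUcore

set_option autoImplicit false

namespace Pool.Agent.Q224.UM

open Pool.Agent.Q97.UM

/-- The method of moments for half-lines (job UM11-ABU). -/
theorem t_ABU : S_ABU := fun a ε hε => half_line_uniform a ε hε

end Pool.Agent.Q224.UM
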