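import Pool.Agent.Q62.UM.Stm2

/-! Project UM, statement P1. -/

open Real Set MeasureTheory Topology Filter
open scoped ENNReal

namespace Pool.Agent.Q224.UM

open Pool.Agent.Q62.UM

lemma lint_le_of_Icc {J : Set ℝ} (hJ : OI J) (G : ℝ → ℝ≥0∞) (C : ℝ≥0∞)
    (h : ∀ a ∈ J, ∀ b ∈ J, a ≤ b → ∫⁻ u in Icc a b, G u ≤ C) : ∫⁻ u in J, G u ≤ C := by
  classical
  let ι := {p : ℚ × ℚ // (p.1 : ℝ) ∈ J ∧ (p.2 : ℝ) ∈ J}
  let s : ι → Set ℝ := fun p => Icc (p.1.1 : ℝ) (p.1.2 : ℝ)
  have hu : J = ⋃ i, s i := by
    ext x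
    simp only [mem_iUnion]
    constructor
    · intro hx
      obtain ⟨ε, hε, hb⟩ := Metric.isOpen_iff.1 hJ.1 x hx
      obtain ⟨a, ha1, ha2⟩ := exists_rat_btwn (show x - ε < x by linarith)
      obtain ⟨b, hb1, hb2⟩ := exists_rat_btwn (show x < x + ε by linarith)
      refine ⟨⟨(a, b), hb ?_, hb ?_⟩, ha2.le, hb1.le⟩
      · rw [Metric.mem_ball, Real.dist_eq, abs_lt]; constructor <;> linarith
      · rw [Metric.mem_ball, Real.dist_eq, abs_lt]; constructor <;> linarith
    · rintro ⟨i, hi⟩
      exact hJ.2.out i.2.1 i.2.2 hi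
  have hd : Directed (· ⊆ ·) s := by
    intro i j
    have h1 : ((min i.1.1 j.1.1 : ℚ) : ℝ) ∈ J := by
      rcases min_choice i.1.1 j.1.1 with h | h <;> rw [h]
      · exact i.2.1
      · exact j.2.1
    have h2 : ((max i.1.2 j.1.2 : ℚ) : ℝ) ∈ J := by
      rcases max_choice i.1.2 j.1.2 with h | h <;> rw [h]
      · exact i.2.2
      · exact j.2.2
    refine ⟨⟨(min i.1.1 j.1.1, max i.1.2 j.1.2), h1, h2⟩, ?_, ?_⟩
    · exact Icc_subset_Icc (by exact_mod_cast min_le_left _ _) (by exact_mod_cast le_max_left _ _)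
    · exact Icc_subset_Icc (by exact_mod_cast min_le_right _ _)
        (by exact_mod_cast le_max_right _ _)
  rw [hu, setLIntegral_iUnion_of_directed _ hd]
  refine iSup_le fun i => ?_
  by_cases hab : (i.1.1 : ℝ) ≤ i.1.2
  · exact h _ i.2.1 _ i.2.2 hab
  · simp [s, Icc_eq_empty hab]

/-- the integral of a derivative of constant sign -/
lemma int_deriv {g g' : ℝ → ℝ} {a b : ℝ} (hab : a ≤ b)
    (hd : ∀ u ∈ Icc a b, HasDerivAt g (g' u) u) (hc : ContinuousOn g' (Icc a b))
    (hs : ∀ u ∈ Icc a b, 0 ≤ g' u) :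
    ∫⁻ u in Icc a b, ENNReal.ofReal (g' u) = ENNReal.ofReal (g b - g a) := by
  have h1 : ∫ u in a..b, g' u = g b - g a :=
    intervalIntegral.integral_eq_sub_of_hasDerivAt (fun u hu => hd u (by rwa [uIcc_of_le hab] at hu))
      (hc.intervalIntegrable_of_Icc hab)
  rw [intervalIntegral.integral_of_le hab, ← integral_Icc_eq_integral_Ioc] at h1
  rw [← h1, ofReal_integral_eq_lintegral_ofReal (hc.integrableOn_Icc)]
  filter_upwards [ae_restrict_mem measurableSet_Icc] with u hu
  exact hs u hu

lemma min_le_lint {f : ℝ → ℝ} {a b : ℝ} :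
    ∫⁻ u in Icc a b, ENNReal.ofReal (min (f u) 1) ≤ ENNReal.ofReal (b - a) := by
  calc ∫⁻ u in Icc a b, ENNReal.ofReal (min (f u) 1) ≤ ∫⁻ _ in Icc a b, 1 := by
        refine lintegral_mono fun u => ?_
        rw [← ENNReal.ofReal_one]
        exact ENNReal.ofReal_le_ofReal (min_le_right _ _)
    _ = ENNReal.ofReal (b - a) := by simp

/-- case of the second derivative, `q'' ≥ 0` -/
lemma second {J : Set ℝ} (hJ : OI J) {q q' q'' : ℝ → ℝ} (h1 : ∀ u ∈ J, HasDerivAt q (q' u) u)
    (h2 : ∀ u ∈ J, HasDerivAt q' (q'' u) u) (hc : ContinuousOn q'' J) (hs : ∀ u ∈ J, 0 ≤ q'' u)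
    (hb : ∀ u ∈ J, |q u| ≤ 2) : ∫⁻ u in J, ENNReal.ofReal (min (q'' u) 1) ≤ 10 := by
  apply lint_le_of_Icc hJ
  intro a ha b hb' hab
  have hsub : Icc a b ⊆ J := hJ.2.out ha hb'
  have hmono : MonotoneOn q' (Icc a b) := by
    apply monotoneOn_of_deriv_nonneg (convex_Icc a b)
      (fun u hu => (h2 u (hsub hu)).continuousAt.continuousWithinAt)
    · intro u hu
      exact (h2 u (hsub (interior_subset hu))).differentiableAt.differentiableWithinAt
    · intro u hu
      rw [(h2 u (hsub (interior_subset hu))).deriv]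
      exact hs u (hsub (interior_subset hu))
  by_cases h : b - a ≤ 2
  · refine min_le_lint.trans ?_
    calc ENNReal.ofReal (b - a) ≤ ENNReal.ofReal 10 := ENNReal.ofReal_le_ofReal (by linarith)
      _ = 10 := by norm_num
  · push Not at h
    have e1 : Icc a b ⊆ Icc a (a + 1) ∪ (Icc (a + 1) (b - 1) ∪ Icc (b - 1) b) := by
      intro u hu
      rcases le_total u (a + 1) with h3 | h3
      · exact Or.inl ⟨hu.1, h3⟩
      · rcases le_total u (b - 1) with h4 | h4
        · exact Or.inr (Or.inl ⟨h3, h4⟩)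
        · exact Or.inr (Or.inr ⟨h4, hu.2⟩)
    have e2 : ∫⁻ u in Icc a b, ENNReal.ofReal (min (q'' u) 1) ≤
        (∫⁻ u in Icc a (a + 1), ENNReal.ofReal (min (q'' u) 1)) +
        ((∫⁻ u in Icc (a + 1) (b - 1), ENNReal.ofReal (min (q'' u) 1)) +
          ∫⁻ u in Icc (b - 1) b, ENNReal.ofReal (min (q'' u) 1)) :=
      (lintegral_mono_set e1).trans ((lintegral_union_le _ _ _).trans
        (add_le_add le_rfl (lintegral_union_le _ _ _)))
    have e3 : ∫⁻ u in Icc (a + 1) (b - 1), ENNReal.ofReal (min (q'' u) 1) ≤ ENNReal.ofReal 8 := by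
      calc ∫⁻ u in Icc (a + 1) (b - 1), ENNReal.ofReal (min (q'' u) 1)
          ≤ ∫⁻ u in Icc (a + 1) (b - 1), ENNReal.ofReal (q'' u) :=
            lintegral_mono fun u => ENNReal.ofReal_le_ofReal (min_le_left _ _)
        _ = ENNReal.ofReal (q' (b - 1) - q' (a + 1)) := by
            have hs' : Icc (a + 1) (b - 1) ⊆ J :=
              (Icc_subset_Icc (by linarith) (by linarith)).trans hsub
            exact int_deriv (by linarith) (fun u hu => h2 u (hs' hu)) (hc.mono hs')
              (fun u hu => hs u (hs' hu))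
        _ ≤ ENNReal.ofReal 8 := by
            apply ENNReal.ofReal_le_ofReal
            have m1 : q' (b - 1) ≤ 4 := by
              have hs' : Icc (b - 1) b ⊆ J := (Icc_subset_Icc (by linarith) le_rfl).trans hsub
              obtain ⟨x, hx, hx'⟩ := exists_hasDerivAt_eq_slope q q' (show b - 1 < b by linarith)
                (fun u hu => (h1 u (hs' hu)).continuousAt.continuousWithinAt)
                (fun u hu => h1 u (hs' (Ioo_subset_Icc_self hu)))
              have := hmono ⟨by linarith, by linarith⟩ ⟨by linarith [hx.1], hx.2.le⟩ hx.1.le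
              have e1 := abs_le.1 (hb b hb')
              have e2 := abs_le.1 (hb (b - 1) (hs' ⟨le_rfl, by linarith⟩))
              rw [hx'] at this
              have e3 : (q b - q (b - 1)) / (b - (b - 1)) = q b - q (b - 1) := by
                rw [show b - (b - 1) = 1 by ring, div_one]
              rw [e3] at this
              linarith
            have m2 : -4 ≤ q' (a + 1) := by
              have hs' : Icc a (a + 1) ⊆ J := (Icc_subset_Icc le_rfl (by linarith)).trans hsub
              obtain ⟨x, hx, hx'⟩ := exists_hasDerivAt_eq_slope q q' (show a < a + 1 by linarith)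
                (fun u hu => (h1 u (hs' hu)).continuousAt.continuousWithinAt)
                (fun u hu => h1 u (hs' (Ioo_subset_Icc_self hu)))
              have := hmono ⟨hx.1.le, by linarith [hx.2]⟩ ⟨by linarith, by linarith⟩ hx.2.le
              have e1 := abs_le.1 (hb a ha)
              have e2 := abs_le.1 (hb (a + 1) (hs' ⟨by linarith, le_rfl⟩))
              rw [hx'] at this
              have e3 : (q (a + 1) - q a) / (a + 1 - a) = q (a + 1) - q a := by
                rw [show a + 1 - a = 1 by ring, div_one]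
              rw [e3] at this
              linarith
            linarith
    have e4 := min_le_lint (f := q'') (a := a) (b := a + 1)
    have e5 := min_le_lint (f := q'') (a := b - 1) (b := b)
    rw [show a + 1 - a = 1 by ring] at e4
    rw [show b - (b - 1) = 1 by ring] at e5
    calc _ ≤ _ := e2
      _ ≤ ENNReal.ofReal 1 + (ENNReal.ofReal 8 + ENNReal.ofReal 1) :=
          add_le_add e4 (add_le_add e3 e5)
      _ = 10 := by norm_num

/-- case of the first derivative, `q' ≥ 0` -/
lemma first {J : Set ℝ} (hJ : OI J) {q q' : ℝ → ℝ} (h1 : ∀ u ∈ J, HasDerivAt q (q' u) u)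
    (hc : ContinuousOn q' J) (hs : ∀ u ∈ J, 0 ≤ q' u)
    (hb : ∀ u ∈ J, |q u| ≤ 2) : ∫⁻ u in J, ENNReal.ofReal (min (q' u) 1) ≤ 10 := by
  apply lint_le_of_Icc hJ
  intro a ha b hb' hab
  have hsub : Icc a b ⊆ J := hJ.2.out ha hb'
  calc ∫⁻ u in Icc a b, ENNReal.ofReal (min (q' u) 1)
      ≤ ∫⁻ u in Icc a b, ENNReal.ofReal (q' u) :=
        lintegral_mono fun u => ENNReal.ofReal_le_ofReal (min_le_left _ _)
    _ = ENNReal.ofReal (q b - q a) :=
        int_deriv hab (fun u hu => h1 u (hsub hu)) (hc.mono hsub) (fun u hu => hs u (hsub hu))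
    _ ≤ ENNReal.ofReal 10 := by
        apply ENNReal.ofReal_le_ofReal
        have e1 := abs_le.1 (hb a ha)
        have e2 := abs_le.1 (hb b hb')
        linarith
    _ = 10 := by norm_num

lemma mono_abs {J : Set ℝ} (hJ : OI J) {g g' : ℝ → ℝ} (h1 : ∀ u ∈ J, HasDerivAt g (g' u) u)
    (hs : (∀ u ∈ J, 0 ≤ g u) ∨ (∀ u ∈ J, g u ≤ 0))
    (hs' : (∀ u ∈ J, 0 ≤ g' u) ∨ (∀ u ∈ J, g' u ≤ 0)) :
    MonotoneOn (fun u => |g u|) J ∨ AntitoneOn (fun u => |g u|) J := by
  have hcont : ContinuousOn g J := fun u hu => (h1 u hu).continuousAt.continuousWithinAt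
  have hdiff : DifferentiableOn ℝ g (interior J) := fun u hu =>
    (h1 u (interior_subset hu)).differentiableAt.differentiableWithinAt
  have hconv : Convex ℝ J := hJ.2.convex
  have key : MonotoneOn g J ∨ AntitoneOn g J := by
    rcases hs' with h | h
    · left
      exact monotoneOn_of_deriv_nonneg hconv hcont hdiff fun u hu => by
        rw [(h1 u (interior_subset hu)).deriv]; exact h u (interior_subset hu)
    · right
      exact antitoneOn_of_deriv_nonpos hconv hcont hdiff fun u hu => by
        rw [(h1 u (interior_subset hu)).deriv]; exact h u (interior_subset hu)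
  rcases hs with h | h
  · rcases key with k | k
    · left; intro x hx y hy hxy
      simp only [abs_of_nonneg (h x hx), abs_of_nonneg (h y hy)]; exact k hx hy hxy
    · right; intro x hx y hy hxy
      simp only [abs_of_nonneg (h x hx), abs_of_nonneg (h y hy)]; exact k hx hy hxy
  · rcases key with k | k
    · right; intro x hx y hy hxy
      simp only [abs_of_nonpos (h x hx), abs_of_nonpos (h y hy)]
      exact neg_le_neg (k hx hy hxy)
    · left; intro x hx y hy hxy
      simp only [abs_of_nonpos (h x hx), abs_of_nonpos (h y hy)]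
      exact neg_le_neg (k hx hy hxy)

theorem t_P1 : S_P1 := by
  intro J q hJ hT hb f hf
  obtain ⟨hC, hS⟩ := hT
  have hJo := hJ.1
  -- derivatives
  have c1 : ContDiffOn ℝ 3 (deriv q) J := hC.deriv_of_isOpen hJo (by norm_num)
  have c2 : ContDiffOn ℝ 2 (deriv (deriv q)) J := c1.deriv_of_isOpen hJo (by norm_num)
  have d0 : ∀ u ∈ J, HasDerivAt q (deriv q u) u := fun u hu =>
    ((hC.differentiableOn (by norm_num)).differentiableAt (hJo.mem_nhds hu)).hasDerivAt
  have d1 : ∀ u ∈ J, HasDerivAt (deriv q) (deriv (deriv q) u) u := fun u hu =>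
    ((c1.differentiableOn (by norm_num)).differentiableAt (hJo.mem_nhds hu)).hasDerivAt
  have d2 : ∀ u ∈ J, HasDerivAt (deriv (deriv q)) (deriv (deriv (deriv q)) u) u := fun u hu =>
    ((c2.differentiableOn (by norm_num)).differentiableAt (hJo.mem_nhds hu)).hasDerivAt
  have i1 : iteratedDeriv 1 q = deriv q := iteratedDeriv_one
  have i2 : iteratedDeriv 2 q = deriv (deriv q) := by
    rw [iteratedDeriv_succ, iteratedDeriv_one]
  have i3 : iteratedDeriv 3 q = deriv (deriv (deriv q)) := by
    rw [iteratedDeriv_succ, i2]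
  have sg : ∀ l ≤ 3, (∀ u ∈ J, 0 ≤ iteratedDeriv l q u) ∨ (∀ u ∈ J, iteratedDeriv l q u ≤ 0) := by
    intro l hl
    rcases hS l hl with h | h | h
    · exact Or.inl fun u hu => (h u hu).ge
    · exact Or.inl fun u hu => (h u hu).le
    · exact Or.inr fun u hu => (h u hu).le
  have s1 := sg 1 (by norm_num)
  have s2 := sg 2 (by norm_num)
  have s3 := sg 3 le_rfl
  rw [i1] at s1
  rw [i2] at s2
  rw [i3] at s3
  rcases hf with rfl | rfl
  · refine ⟨c1.continuousOn.abs, mono_abs hJ d1 s1 s2, ?_⟩
    rcases s1 with h | h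
    · have : ∫⁻ u in J, ENNReal.ofReal (min |deriv q u| 1) =
          ∫⁻ u in J, ENNReal.ofReal (min (deriv q u) 1) := by
        apply setLIntegral_congr_fun hJo.measurableSet
        intro u hu
        simp only [abs_of_nonneg (h u hu)]
      rw [this]
      exact first hJ d0 c1.continuousOn h hb
    · have : ∫⁻ u in J, ENNReal.ofReal (min |deriv q u| 1) =
          ∫⁻ u in J, ENNReal.ofReal (min (-deriv q u) 1) := by
        apply setLIntegral_congr_fun hJo.measurableSet
        intro u hu
        simp only [abs_of_nonpos (h u hu)]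
      rw [this]
      exact first (q := fun u => -q u) (q' := fun u => -deriv q u) hJ (fun u hu => (d0 u hu).neg)
        c1.continuousOn.neg (fun u hu => by linarith [h u hu]) (fun u hu => by
          rw [abs_neg]; exact hb u hu)
  · refine ⟨c2.continuousOn.abs, mono_abs hJ d2 s2 s3, ?_⟩
    rcases s2 with h | h
    · have : ∫⁻ u in J, ENNReal.ofReal (min |deriv (deriv q) u| 1) =
          ∫⁻ u in J, ENNReal.ofReal (min (deriv (deriv q) u) 1) := by
        apply setLIntegral_congr_fun hJo.measurableSet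
        intro u hu
        simp only [abs_of_nonneg (h u hu)]
      rw [this]
      exact second hJ d0 d1 c2.continuousOn h hb
    · have : ∫⁻ u in J, ENNReal.ofReal (min |deriv (deriv q) u| 1) =
          ∫⁻ u in J, ENNReal.ofReal (min (-deriv (deriv q) u) 1) := by
        apply setLIntegral_congr_fun hJo.measurableSet
        intro u hu
        simp only [abs_of_nonpos (h u hu)]
      rw [this]
      exact second (q := fun u => -q u) (q' := fun u => -deriv q u)
        (q'' := fun u => -deriv (deriv q) u) hJ (fun u hu => (d0 u hu).neg)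
        (fun u hu => (d1 u hu).neg)
        c2.continuousOn.neg (fun u hu => by linarith [h u hu]) (fun u hu => by
          rw [abs_neg]; exact hb u hu)

end Pool.Agent.Q224.UM
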