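import Pool.Agent.Q62.UM.Stm2

/-! Project UM, statement PA. -/

open Real Set MeasureTheory Topology Filter
open scoped ENNReal Polynomial

namespace Pool.Agent.Q224.UM

open Pool.Agent.Q62.UM

/-- the data on one interval on which each root vanishes identically or nowhere -/
lemma pa_piece (d1 : S_D1) (d2 : S_D2) (n : ℕ) (hn : 1 ≤ n) (F : ℂ → ℂ) (G : ℂ[X][X])
    (hGd : G.natDegree ≤ 2 * n) (hGc : ∀ i, (G.coeff i).natDegree ≤ n)
    (hF : ∀ z : ℂ, F z = Complex.exp (-(n * (z.im * Complex.I))) *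
      ev G z.re (Complex.exp (z.im * Complex.I)))
    (J : Set ℝ) (hlc : ∀ u ∈ J, G.leadingCoeff.eval (Real.exp u : ℂ) ≠ 0)
    (hF0 : ∀ z : ℂ, z.re ∈ J → F z ≠ 0)
    (ω : Fin G.natDegree → ℝ → ℂ) (hωc : ∀ j, ContinuousOn (ω j) J)
    (hω : ∀ u ∈ J, ∀ t, ev G u t = G.leadingCoeff.eval (Real.exp u : ℂ) * ∏ j, (t - ω j u))
    (hdich : ∀ j, (∀ u ∈ J, ω j u = 0) ∨ (∀ u ∈ J, ω j u ≠ 0)) :
    ∃ (N : ℕ) (ρ : Fin N → ℝ → ℝ) (ε : Fin N → ℝ → ℂ) (q : ℤ) (c : ℝ → ℂ), N ≤ 2 * n ∧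
        |q| ≤ n ∧ RD J (3000000 * n ^ 9) F N ρ ε q c := by
  classical
  -- roots
  have hroot : ∀ j, ∀ u ∈ J, ev G u (ω j u) = 0 := by
    intro j u hu
    rw [hω u hu, Finset.prod_eq_zero (Finset.mem_univ j) (sub_self _), mul_zero]
  have hG0 : ∀ j : Fin G.natDegree, G ≠ 0 := by
    intro j h
    have h2 : G.natDegree = 0 := by rw [h, Polynomial.natDegree_zero]
    have := j.2
    omega
  have hωA : ∀ j, Alg (2 * n) J (ω j) := fun j =>
    ⟨G, hG0 j, hGd, fun i => (hGc i).trans (by omega), fun u hu => hroot j u hu⟩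
  set S : Finset (Fin G.natDegree) := Finset.univ.filter fun j => ∀ u ∈ J, ω j u ≠ 0 with hS
  have hSc : ∀ j ∈ Sᶜ, ∀ u ∈ J, ω j u = 0 := by
    intro j hj
    rw [Finset.mem_compl, hS, Finset.mem_filter] at hj
    rcases hdich j with h | h
    · exact h
    · exact absurd ⟨Finset.mem_univ j, h⟩ hj
  have hSm : ∀ j ∈ S, ∀ u ∈ J, ω j u ≠ 0 := fun j hj => (Finset.mem_filter.1 hj).2
  let e : Fin S.card ≃ S := S.equivFin.symm
  have he : ∀ k, ∀ u ∈ J, ω (e k) u ≠ 0 := by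
    intro k
    exact hSm _ (e k).2
  have hcard : S.card + Sᶜ.card = G.natDegree := by
    rw [Finset.card_add_card_compl, Fintype.card_fin]
  -- the algebraic functions
  have hn3 : 1 ≤ n ^ 3 := Nat.one_le_pow _ _ hn
  have hAρ2 : ∀ k, Alg (5 * (2 * n) ^ 3) J (fun u => ((‖ω (e k) u‖ : ℝ) : ℂ) ^ 2) := by
    intro k
    refine d2.2.2.2.2.2.2.1 _ _ _ _ (fun u _ => ?_)
      (d1 (2 * n) J _ _ (by omega) (hωA (e k)) (d2.1 _ _ _ (hωA (e k)))).2
    rw [Complex.mul_conj, Complex.normSq_eq_norm_sq]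
    push_cast
    rfl
  have hAρ : ∀ k, Alg (2 * (5 * (2 * n) ^ 3)) J (fun u => ((‖ω (e k) u‖ : ℝ) : ℂ)) := fun k =>
    d2.2.1 _ _ _ (hAρ2 k)
  have hρne : ∀ k, ∀ u ∈ J, ((‖ω (e k) u‖ : ℝ) : ℂ) ≠ 0 := fun k u hu h => by
    rw [Complex.ofReal_eq_zero, norm_eq_zero] at h
    exact he k u hu h
  have hAε : ∀ k, Alg (5 * (2 * (5 * (2 * n) ^ 3)) ^ 3) J
      (fun u => ω (e k) u * ((‖ω (e k) u‖ : ℝ) : ℂ)⁻¹) := fun k =>
    (d1 (2 * (5 * (2 * n) ^ 3)) J _ _ (by nlinarith [hn3])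
      (d2.2.2.2.2.2.1 _ _ _ _ _ (by nlinarith [Nat.le_self_pow (show 3 ≠ 0 by norm_num) n])
        subset_rfl (hωA (e k)))
      (d2.2.2.1 _ _ _ (hAρ k) (hρne k))).2
  have hn9 : n ^ 3 ≤ n ^ 9 := Nat.pow_le_pow_right hn (by norm_num)
  refine ⟨S.card, fun k u => ‖ω (e k) u‖, fun k u => ω (e k) u * ((‖ω (e k) u‖ : ℝ) : ℂ)⁻¹,
    -(n : ℤ) + (Sᶜ.card : ℤ), fun u => G.leadingCoeff.eval (Real.exp u : ℂ), by omega, ?_, ?_⟩
  · rw [abs_le]
    constructor <;> omega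
  · constructor
    · exact fun k => (hωc (e k)).norm
    · exact fun k => (hωc (e k)).mul
        ((Complex.continuous_ofReal.comp_continuousOn (hωc (e k)).norm).inv₀ (hρne k))
    · exact (G.leadingCoeff.continuous.comp
        (Complex.continuous_ofReal.comp Real.continuous_exp)).continuousOn
    · exact fun k u hu => norm_pos_iff.2 (he k u hu)
    · intro k u hu h
      have h1 : Complex.exp ((Complex.arg (ω (e k) u) : ℝ) * Complex.I) = ω (e k) u := by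
        have := Complex.norm_mul_exp_arg_mul_I (ω (e k) u)
        have h' : ‖ω (e k) u‖ = 1 := h
        rwa [h', Complex.ofReal_one, one_mul] at this
      have h2 := hF0 (⟨u, Complex.arg (ω (e k) u)⟩ : ℂ) hu
      apply h2
      rw [hF]
      simp only []
      rw [h1, hroot (e k) u hu, mul_zero]
    · intro k u hu
      have : ‖ω (e k) u‖ ≠ 0 := norm_ne_zero_iff.2 (he k u hu)
      simp only [norm_mul, norm_inv, Complex.norm_real, norm_norm]
      exact mul_inv_cancel₀ this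
    · exact hlc
    · exact fun k => d2.2.2.2.2.2.1 _ _ _ _ _ (by nlinarith [hn9]) subset_rfl (hAρ k)
    · exact fun k => d2.2.2.2.2.2.1 _ _ _ _ _ (by ring_nf; nlinarith [hn9]) subset_rfl (hAε k)
    · refine d2.2.2.2.2.2.1 _ _ _ _ _ ?_ subset_rfl (d2.2.2.2.2.2.2.2 n J G.leadingCoeff (hGc _))
      have : n ≤ n ^ 9 := Nat.le_self_pow (by norm_num) _
      exact max_le (by omega) (by omega)
    · intro z hz
      have h1 : ∀ k, ((‖ω (e k) z.re‖ : ℝ) : ℂ) * (ω (e k) z.re * ((‖ω (e k) z.re‖ : ℝ) : ℂ)⁻¹) =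
          ω (e k) z.re := fun k => by
        rw [mul_comm, mul_assoc, inv_mul_cancel₀ (hρne k _ hz), mul_one]
      simp only [h1]
      rw [hF, hω _ hz]
      set t := Complex.exp (z.im * Complex.I) with ht
      have h2 : ∏ j, (t - ω j z.re) = (∏ k, (t - ω (e k) z.re)) * t ^ Sᶜ.card := by
        rw [← Finset.prod_mul_prod_compl S fun j => t - ω j z.re]
        congr 1
        · rw [← Finset.prod_coe_sort, ← Equiv.prod_comp e]
        · rw [Finset.prod_congr rfl (fun j hj => by rw [hSc j hj _ hz, sub_zero]),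
            Finset.prod_const]
      rw [h2]
      have h3 : Complex.exp (((-(n : ℤ) + (Sᶜ.card : ℤ) : ℤ) : ℂ) * (z.im * Complex.I)) =
          Complex.exp (-(n * (z.im * Complex.I))) * t ^ Sᶜ.card := by
        rw [ht, ← Complex.exp_nat_mul, ← Complex.exp_add]
        congr 1
        push_cast
        ring
      rw [h3]
      ring

theorem pa (d1 : S_D1) (d2 : S_D2) (d3 : S_D3) (d6 : S_D6) (r1 : S_R1) (ra : S_RA) (rb : S_RB)
    (rc : S_RC) : S_PA := by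
  classical
  intro n P Q p Zf hn hP hQ hZf
  obtain ⟨G, hGd, hGc, hF⟩ := r1 n P Q p hP hQ
  have hG0 : G ≠ 0 := by
    intro h
    obtain ⟨x, hx⟩ := Infinite.exists_notMem_finset Zf
    apply hx
    apply hZf (x : ℂ)
    rw [hF, h]
    simp [ev]
  obtain ⟨R, Z₁, _, hZ₁, hR⟩ := ra (2 * n) G (by omega) hG0 hGd (fun i => (hGc i).trans (by omega))
  have hcard : (Zf ∪ Z₁).card ≤ Zf.card + 24 * n ^ 2 := by
    refine (Finset.card_union_le _ _).trans ?_
    have : 6 * (2 * n) ^ 2 = 24 * n ^ 2 := by ring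
    omega
  have hloc : ∀ I, OI I → I.Nonempty → Disjoint I ((Zf ∪ Z₁ : Finset ℝ) : Set ℝ) →
      ∃ Z : Finset ℝ, Z.card ≤ 4 * n ^ 2 ∧
      ∀ J, OI J → J.Nonempty → J ⊆ I → Disjoint J (Z : Set ℝ) →
      ∃ (N : ℕ) (ρ : Fin N → ℝ → ℝ) (ε : Fin N → ℝ → ℂ) (q : ℤ) (c : ℝ → ℂ), N ≤ 2 * n ∧
        |q| ≤ n ∧ RD J (3000000 * n ^ 9) (FF P Q p) N ρ ε q c := by
    intro I hI hIne hdis
    have hI1 : ∀ u ∈ I, u ∉ Z₁ := fun u hu h =>
      Set.disjoint_left.1 hdis hu (by simp [h])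
    have hIf : ∀ u ∈ I, u ∉ Zf := fun u hu h =>
      Set.disjoint_left.1 hdis hu (by simp [h])
    obtain ⟨σ, hσc, hσi, hσr⟩ := rb R I hI hIne (fun u hu => (hR u (hI1 u hu)).1)
      (fun u hu => (hR u (hI1 u hu)).2.2.1)
    have hσG : ∀ u ∈ I, ∀ t, ev G u t = 0 ↔ ∃ i, σ i u = t := fun u hu t => by
      rw [← hσr u hu t]
      exact ((hR u (hI1 u hu)).2.2.2 t).symm
    obtain ⟨ω, hωσ, hω⟩ := rc G I R.natDegree σ hI hIne (fun u hu => (hR u (hI1 u hu)).2.1) hσc hσi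
      hσG
    have hωc : ∀ j, ContinuousOn (ω j) I := fun j => by
      obtain ⟨i, hi⟩ := hωσ j
      rw [hi]
      exact hσc i
    have hωA : ∀ j, Alg (2 * n) I (ω j) := fun j =>
      ⟨G, hG0, hGd, fun i => (hGc i).trans (by omega), fun u hu => by
        have : ev G u (ω j u) = 0 := by
          rw [hω u hu, Finset.prod_eq_zero (Finset.mem_univ j) (sub_self _), mul_zero]
        exact this⟩
    choose ZZ hZZ hZJ' using fun j => d3 (2 * n) I (ω j) hI (hωc j) (hωA j)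
    refine ⟨Finset.univ.biUnion ZZ, ?_, ?_⟩
    · refine Finset.card_biUnion_le.trans ?_
      calc ∑ j, (ZZ j).card ≤ ∑ _j : Fin G.natDegree, 2 * n := Finset.sum_le_sum fun j _ => hZZ j
        _ = G.natDegree * (2 * n) := by simp
        _ ≤ 2 * n * (2 * n) := Nat.mul_le_mul_right _ hGd
        _ = 4 * n ^ 2 := by ring
    · intro J hJ _ hJI hJd
      refine pa_piece d1 d2 n hn (FF P Q p) G hGd hGc hF J
        (fun u hu => (hR u (hI1 u (hJI hu))).2.1) (fun z hz h => hIf _ (hJI hz) (hZf z h)) ω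
        (fun j => (hωc j).mono hJI) (fun u hu => hω u (hJI hu)) (fun j => ?_)
      refine hZJ' j J hJ hJI (hJd.mono_right ?_)
      intro x hx
      rw [Finset.mem_coe, Finset.mem_biUnion]
      exact ⟨j, Finset.mem_univ j, hx⟩
  obtain ⟨Z, hZ, hZJ⟩ := d6 (fun I => ∃ (N : ℕ) (ρ : Fin N → ℝ → ℝ) (ε : Fin N → ℝ → ℂ) (q : ℤ)
    (c : ℝ → ℂ), N ≤ 2 * n ∧ |q| ≤ n ∧ RD I (3000000 * n ^ 9) (FF P Q p) N ρ ε q c)
    (Zf ∪ Z₁) (4 * n ^ 2) hloc
  refine ⟨Z, hZ.trans ?_, hZJ⟩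
  exact add_le_add hcard (Nat.mul_le_mul_right _ (by omega))

end Pool.Agent.Q224.UM
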