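import Pool.Agent.Q62.UM.Stm2

/-! Project UM, statement PB. -/

open Real Set MeasureTheory Topology Filter
open scoped ENNReal

namespace Pool.Agent.Q224.UM

open Pool.Agent.Q62.UM

/-- the iterated degree -/
def PP (D k : ℕ) : ℕ := Ph^[k] D

lemma PP_succ (D k : ℕ) : PP D (k + 1) = 10 * PP D k ^ 3 := by
  unfold PP; rw [Function.iterate_succ_apply']; rfl

lemma PP_pos {D : ℕ} (hD : 1 ≤ D) (k : ℕ) : 1 ≤ PP D k := by
  induction k with
  | zero => exact hD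
  | succ k ih => rw [PP_succ]; nlinarith [Nat.one_le_pow 3 _ ih]

lemma PP_step {D : ℕ} (hD : 1 ≤ D) (k : ℕ) : 2 * PP D k ≤ PP D (k + 1) := by
  rw [PP_succ]
  have h1 := PP_pos hD k
  have : PP D k ≤ PP D k ^ 3 := Nat.le_self_pow (by norm_num) _
  omega

lemma PP_mono {D : ℕ} (hD : 1 ≤ D) {k l : ℕ} (h : k ≤ l) : PP D k ≤ PP D l :=
  monotone_nat_of_le_succ (f := PP D) (fun k => by have := PP_step hD k; omega) h

/-- algebraic of level `k` -/
def AL (D : ℕ) (I : Set ℝ) (k : ℕ) (f : ℝ → ℂ) : Prop := Alg (PP D k) I f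

section

variable (d1 : S_D1) (d2 : S_D2) {D : ℕ} (hD : 1 ≤ D) {I : Set ℝ}

include d2 in
lemma AL_congr {k : ℕ} {f g : ℝ → ℂ} (hf : AL D I k f) (h : ∀ u ∈ I, f u = g u) : AL D I k g :=
  d2.2.2.2.2.2.2.1 _ _ _ _ h hf

include d2 hD in
lemma AL_mono {k l : ℕ} {f : ℝ → ℂ} (hf : AL D I k f) (h : k ≤ l) : AL D I l f :=
  d2.2.2.2.2.2.1 _ _ _ _ _ (PP_mono hD h) subset_rfl hf

include d1 d2 hD in
lemma AL_add {k : ℕ} {f g : ℝ → ℂ} (hf : AL D I k f) (hg : AL D I k g) :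
    AL D I (k + 1) (fun u => f u + g u) :=
  d2.2.2.2.2.2.1 _ _ _ _ _ (by rw [PP_succ]; omega) subset_rfl (d1 _ _ _ _ (PP_pos hD k) hf hg).1

include d1 d2 hD in
lemma AL_mul {k : ℕ} {f g : ℝ → ℂ} (hf : AL D I k f) (hg : AL D I k g) :
    AL D I (k + 1) (fun u => f u * g u) :=
  d2.2.2.2.2.2.1 _ _ _ _ _ (by rw [PP_succ]; omega) subset_rfl (d1 _ _ _ _ (PP_pos hD k) hf hg).2

include d2 in
lemma AL_conj {k : ℕ} {f : ℝ → ℂ} (hf : AL D I k f) :
    AL D I k (fun u => (starRingEnd ℂ) (f u)) := d2.1 _ _ _ hf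

include d2 in
lemma AL_inv {k : ℕ} {f : ℝ → ℂ} (hf : AL D I k f) (h : ∀ u ∈ I, f u ≠ 0) :
    AL D I k (fun u => (f u)⁻¹) := d2.2.2.1 _ _ _ hf h

include d2 hD in
lemma AL_const (k : ℕ) (c : ℂ) : AL D I k (fun _ => c) :=
  d2.2.2.2.2.2.1 _ _ _ _ _ (PP_pos hD k) subset_rfl (d2.2.2.2.1 I c)

include d2 hD in
lemma AL_root {k : ℕ} {f : ℝ → ℂ} (hf : AL D I k (fun u => f u ^ 2)) : AL D I (k + 1) f :=
  d2.2.2.2.2.2.1 _ _ _ _ _ (PP_step hD k) subset_rfl (d2.2.1 _ _ _ hf)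

include d2 hD in
lemma AL_sqrt {k : ℕ} {x : ℝ → ℝ} (h0 : ∀ u ∈ I, 0 ≤ x u) (hf : AL D I k (fun u => (x u : ℂ))) :
    AL D I (k + 1) (fun u => ((√(x u) : ℝ) : ℂ)) := by
  apply AL_root d2 hD
  refine AL_congr d2 hf fun u hu => ?_
  rw [← Complex.ofReal_pow, Real.sq_sqrt (h0 u hu)]

include d1 d2 hD in
lemma AL_norm {k : ℕ} {f : ℝ → ℂ} (hf : AL D I k f) :
    AL D I (k + 2) (fun u => ((‖f u‖ : ℝ) : ℂ)) := by
  apply AL_root d2 hD
  refine AL_congr d2 (AL_mul d1 d2 hD hf (AL_conj d2 hf)) fun u _ => ?_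
  rw [Complex.mul_conj, Complex.normSq_eq_norm_sq]
  push_cast
  rfl

include d1 d2 hD in
lemma AL_re {k : ℕ} {f : ℝ → ℂ} (hf : AL D I k f) :
    AL D I (k + 2) (fun u => (((f u).re : ℝ) : ℂ)) := by
  refine AL_congr d2 (AL_mul d1 d2 hD (AL_add d1 d2 hD hf (AL_conj d2 hf))
    (AL_const d2 hD (k + 1) (1 / 2))) fun u _ => ?_
  rw [Complex.re_eq_add_conj]
  ring

include d1 d2 hD in
lemma AL_sub {k : ℕ} {f g : ℝ → ℂ} (hf : AL D I k f) (hg : AL D I k g) :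
    AL D I (k + 2) (fun u => f u - g u) := by
  refine AL_congr d2 (AL_add d1 d2 hD (AL_mono d2 hD hf (Nat.le_succ k))
    (AL_mul d1 d2 hD hg (AL_const d2 hD k (-1)))) fun u _ => ?_
  ring

include d1 d2 hD in
lemma AL_im {k : ℕ} {f : ℝ → ℂ} (hf : AL D I k f) :
    AL D I (k + 3) (fun u => (((f u).im : ℝ) : ℂ)) := by
  refine AL_congr d2 (AL_mul d1 d2 hD (AL_sub d1 d2 hD hf (AL_conj d2 hf))
    (AL_const d2 hD (k + 2) (1 / (2 * Complex.I)))) fun u _ => ?_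
  rw [Complex.im_eq_sub_conj]
  ring

include d1 d2 hD in
lemma AL_et {ρ : ℝ → ℝ} (h0 : ∀ u ∈ I, 0 < ρ u) (hf : AL D I 0 (fun u => (ρ u : ℂ))) :
    AL D I 5 (fun u => ((et ρ u : ℝ) : ℂ)) := by
  have h1 : AL D I 2 (fun u => (1 : ℂ) - (ρ u : ℂ)) :=
    AL_sub d1 d2 hD (AL_const d2 hD 0 1) hf
  have h2 : AL D I 4 (fun u => ((|1 - ρ u| : ℝ) : ℂ)) := by
    apply AL_root d2 hD
    refine AL_congr d2 (AL_mul d1 d2 hD h1 h1) fun u _ => ?_
    rw [← Complex.ofReal_pow, sq_abs]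
    push_cast
    ring
  have h3 : AL D I 1 (fun u => (1 : ℂ) + (ρ u : ℂ)) :=
    AL_add d1 d2 hD (AL_const d2 hD 0 1) hf
  have h4 : AL D I 1 (fun u => ((1 : ℂ) + (ρ u : ℂ))⁻¹) := by
    apply AL_inv d2 h3
    intro u hu h
    have := h0 u hu
    have h' : ((1 + ρ u : ℝ) : ℂ) = 0 := by push_cast; exact h
    rw [Complex.ofReal_eq_zero] at h'
    linarith
  refine AL_congr d2 (AL_mul d1 d2 hD h2 (AL_mono d2 hD h4 (by norm_num))) fun u _ => ?_
  simp only [et]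
  push_cast
  rfl

end

lemma et_cont {I : Set ℝ} {ρ : ℝ → ℝ} (hc : ContinuousOn ρ I) (h0 : ∀ u ∈ I, 0 < ρ u) :
    ContinuousOn (et ρ) I := by
  unfold et
  apply ContinuousOn.div (continuousOn_const.sub hc).abs (continuousOn_const.add hc)
  intro u hu
  have := h0 u hu
  exact (by linarith : 0 < 1 + ρ u).ne'

lemma et_pos {I : Set ℝ} {ρ : ℝ → ℝ} (h0 : ∀ u ∈ I, 0 < ρ u) (h1 : ∀ u ∈ I, ρ u ≠ 1) :
    ∀ u ∈ I, 0 < et ρ u := by
  intro u hu
  unfold et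
  have := h0 u hu
  have h2 : 0 < |1 - ρ u| := abs_pos.2 (sub_ne_zero.2 (h1 u hu).symm)
  positivity

/-- the union of finitely many exceptional sets -/
lemma union_exc {ι : Type} [Fintype ι] {I : Set ℝ} (f : ι → ℝ → ℝ) (K : ℕ)
    (h : ∀ i, ∃ Z : Finset ℝ, Z.card ≤ K ∧ ∀ J, OI J → J ⊆ I → Disjoint J (Z : Set ℝ) →
      Tame (f i) J) : ∃ Z : Finset ℝ, Z.card ≤ Fintype.card ι * K ∧
    ∀ J, OI J → J ⊆ I → Disjoint J (Z : Set ℝ) → ∀ i, Tame (f i) J := by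
  classical
  choose Z hZ hT using h
  refine ⟨Finset.univ.biUnion Z, ?_, ?_⟩
  · refine (Finset.card_biUnion_le).trans ?_
    calc ∑ i, (Z i).card ≤ ∑ _i : ι, K := Finset.sum_le_sum fun i _ => hZ i
      _ = Fintype.card ι * K := by simp
  · intro J hJ hJI hdis i
    refine hT i J hJ hJI (hdis.mono_right ?_)
    intro x hx
    rw [Finset.mem_coe, Finset.mem_biUnion]
    exact ⟨i, Finset.mem_univ i, hx⟩

/-- the family of all functions -/
noncomputable def fam {N : ℕ} (ρ : Fin N → ℝ → ℝ) (ε : Fin N → ℝ → ℂ) (c : ℝ → ℂ) :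
    (Fin 9 × Fin N × Fin N) ⊕ Fin 4 → ℝ → ℝ
  | Sum.inl (k, i, j) => match k with
    | 0 => fun u => √(√(et (ρ j) u))
    | 1 => fun u => √(et (ρ j) u)
    | 2 => fun u => (ε j u).re
    | 3 => fun u => (ε j u).im
    | 4 => fun u => et (ρ i) u - et (ρ j) u
    | 5 => fun u => ‖ε i u - ε j u‖
    | 6 => fun u => √‖ε i u - ε j u‖
    | 7 => fun u => et (ρ j) u / (et (ρ j) u + ‖ε i u - ε j u‖)
    | 8 => fun u => √(et (ρ i) u / et (ρ j) u)
  | Sum.inr k => match k with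
    | 0 => fun u => (c u / ‖c u‖).re
    | 1 => fun u => (c u / ‖c u‖).im
    | 2 => fun u => (c u).re
    | 3 => fun u => (c u).im

theorem pb (d1 : S_D1) (d2 : S_D2) (d4 : S_D4) : S_PB := by
  intro I D F N ρ ε q c hD hI hR
  have hρ0 := hR.ρ0
  have hε : ∀ j, AL D I 0 (ε j) := hR.εA
  have hc : AL D I 0 c := hR.cA
  have hη : ∀ j, AL D I 5 (fun u => ((et (ρ j) u : ℝ) : ℂ)) := fun j =>
    AL_et d1 d2 hD (hρ0 j) (hR.ρA j)
  have hηc : ∀ j, ContinuousOn (et (ρ j)) I := fun j => et_cont (hR.ρc j) (hρ0 j)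
  have hηp : ∀ j, ∀ u ∈ I, 0 < et (ρ j) u := fun j => et_pos (hρ0 j) (hR.ρ1 j)
  have hsq : ∀ j, AL D I 6 (fun u => ((√(et (ρ j) u) : ℝ) : ℂ)) := fun j =>
    AL_sqrt d2 hD (fun u hu => (hηp j u hu).le) (hη j)
  have hdc : ∀ i j, ContinuousOn (fun u => ‖ε i u - ε j u‖) I := fun i j =>
    ((hR.εc i).sub (hR.εc j)).norm
  have hdA : ∀ i j, AL D I 4 (fun u => ((‖ε i u - ε j u‖ : ℝ) : ℂ)) := fun i j =>
    AL_norm d1 d2 hD (AL_sub d1 d2 hD (hε i) (hε j))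
  have hcn : ∀ u ∈ I, ((‖c u‖ : ℝ) : ℂ) ≠ 0 := fun u hu h => by
    rw [Complex.ofReal_eq_zero, norm_eq_zero] at h
    exact hR.c0 u hu h
  have hcp : ContinuousOn (fun u => c u / ‖c u‖) I :=
    hR.cc.div (Complex.continuous_ofReal.comp_continuousOn hR.cc.norm) hcn
  have hcA : AL D I 3 (fun u => c u / ‖c u‖) := by
    refine AL_congr d2 (AL_mul d1 d2 hD (AL_mono d2 hD hc (by norm_num))
      (AL_inv d2 (AL_norm d1 d2 hD hc) hcn)) fun u _ => ?_
    rw [div_eq_mul_inv]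
  have key : ∀ p, ContinuousOn (fam ρ ε c p) I ∧ AL D I 12 (fun u => ((fam ρ ε c p u : ℝ) : ℂ)) := by
    rintro (⟨k, i, j⟩ | k)
    · fin_cases k
      · exact ⟨((hηc j).sqrt).sqrt, AL_mono d2 hD (AL_sqrt d2 hD (fun u _ => Real.sqrt_nonneg _)
          (hsq j)) (by norm_num)⟩
      · exact ⟨(hηc j).sqrt, AL_mono d2 hD (hsq j) (by norm_num)⟩
      · exact ⟨Complex.continuous_re.comp_continuousOn (hR.εc j),
          AL_mono d2 hD (AL_re d1 d2 hD (hε j)) (by norm_num)⟩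
      · exact ⟨Complex.continuous_im.comp_continuousOn (hR.εc j),
          AL_mono d2 hD (AL_im d1 d2 hD (hε j)) (by norm_num)⟩
      · refine ⟨(hηc i).sub (hηc j), AL_mono d2 hD (AL_congr d2 (AL_sub d1 d2 hD (hη i) (hη j))
          fun u _ => ?_) (by norm_num : 7 ≤ 12)⟩
        show ((et (ρ i) u : ℝ) : ℂ) - ((et (ρ j) u : ℝ) : ℂ) = ((et (ρ i) u - et (ρ j) u : ℝ) : ℂ)
        push_cast
        rfl
      · exact ⟨hdc i j, AL_mono d2 hD (hdA i j) (by norm_num)⟩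
      · exact ⟨(hdc i j).sqrt, AL_mono d2 hD (AL_sqrt d2 hD (fun u _ => norm_nonneg _)
          (hdA i j)) (by norm_num)⟩
      · have hp : ∀ u ∈ I, 0 < et (ρ j) u + ‖ε i u - ε j u‖ := fun u hu => by
          have := hηp j u hu
          positivity
        have hA1 : AL D I 6 (fun u => ((et (ρ j) u + ‖ε i u - ε j u‖ : ℝ) : ℂ)) := by
          refine AL_congr d2 (AL_add d1 d2 hD (hη j) (AL_mono d2 hD (hdA i j) (by norm_num)))
            fun u _ => ?_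
          push_cast
          rfl
        refine ⟨(hηc j).div ((hηc j).add (hdc i j)) fun u hu => (hp u hu).ne', ?_⟩
        refine AL_mono d2 hD (AL_congr d2 (AL_mul d1 d2 hD (AL_mono d2 hD (hη j) (by norm_num))
          (AL_inv d2 hA1 fun u hu h => ?_)) fun u _ => ?_) (by norm_num : 7 ≤ 12)
        · rw [Complex.ofReal_eq_zero] at h
          exact (hp u hu).ne' h
        · show ((et (ρ j) u : ℝ) : ℂ) * (((et (ρ j) u + ‖ε i u - ε j u‖ : ℝ) : ℂ))⁻¹ =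
            ((et (ρ j) u / (et (ρ j) u + ‖ε i u - ε j u‖) : ℝ) : ℂ)
          push_cast
          rw [div_eq_mul_inv]
      · have hA1 : AL D I 6 (fun u => ((et (ρ i) u / et (ρ j) u : ℝ) : ℂ)) := by
          refine AL_congr d2 (AL_mul d1 d2 hD (hη i) (AL_inv d2 (hη j) fun u hu h => ?_))
            fun u _ => ?_
          · rw [Complex.ofReal_eq_zero] at h
            exact (hηp j u hu).ne' h
          · push_cast
            rw [div_eq_mul_inv]
        refine ⟨((hηc i).div (hηc j) fun u hu => (hηp j u hu).ne').sqrt, ?_⟩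
        exact AL_mono d2 hD (AL_sqrt d2 hD (fun u hu =>
          (div_pos (hηp i u hu) (hηp j u hu)).le) hA1) (by norm_num)
    · fin_cases k
      · exact ⟨Complex.continuous_re.comp_continuousOn hcp,
          AL_mono d2 hD (AL_re d1 d2 hD hcA) (by norm_num)⟩
      · exact ⟨Complex.continuous_im.comp_continuousOn hcp,
          AL_mono d2 hD (AL_im d1 d2 hD hcA) (by norm_num)⟩
      · exact ⟨Complex.continuous_re.comp_continuousOn hR.cc,
          AL_mono d2 hD (AL_re d1 d2 hD hc) (by norm_num)⟩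
      · exact ⟨Complex.continuous_im.comp_continuousOn hR.cc,
          AL_mono d2 hD (AL_im d1 d2 hD hc) (by norm_num)⟩
  obtain ⟨Z, hZ, hT⟩ := union_exc (I := I) (fam ρ ε c) (80 * (Ph^[12] D) ^ 4)
    (fun p => d4 (Ph^[12] D) I (fam ρ ε c p) (PP_pos hD 12) hI (key p).1 (key p).2)
  refine ⟨Z, hZ.trans ?_, ?_⟩
  · apply Nat.mul_le_mul_right
    simp only [Fintype.card_sum, Fintype.card_prod, Fintype.card_fin]
    nlinarith
  · intro J hJ hJI hdis
    have H := hT J hJ hJI hdis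
    exact {
      t1 := fun j => H (Sum.inl (0, j, j))
      t2 := fun j => H (Sum.inl (1, j, j))
      t3 := fun j => H (Sum.inl (2, j, j))
      t4 := fun j => H (Sum.inl (3, j, j))
      t5 := fun i j => H (Sum.inl (4, i, j))
      t6 := fun i j => H (Sum.inl (5, i, j))
      t7 := fun i j => H (Sum.inl (6, i, j))
      t8 := fun i j => H (Sum.inl (7, i, j))
      t9 := fun i j => H (Sum.inl (8, i, j))
      t10 := H (Sum.inr 0)
      t11 := H (Sum.inr 1)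
      t12 := H (Sum.inr 2)
      t13 := H (Sum.inr 3) }

end Pool.Agent.Q224.UM
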